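import Pool.Agent.W136.FR.Orig

/-!
# The original Birch and Swinnerton-Dyer asymptotic and one-sided dyadic conditions

Let `C : y² = x³ + a x + b` be an elliptic curve over `ℚ`, `a, b ∈ ℤ`, of rank `R`, with entire
`L`-function `F` (Euler factors at the primes dividing `2Δ` removed), and let
`P(x) = ∏_{p ≤ x, p ∤ 2Δ} (N_p + 1)/p`, the product of the frozen statement.

The conjecture says `P(x) ~ A (log x)^R` for some `A > 0`.  Goldfeld (1982) showed that it implies
`ord_{s=1} F = R`, the Riemann hypothesis and `A = √2 e^{Rγ} R! / F^{(R)}(1)`; Kuo and Murty (2005)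
and Conrad (2005) showed that `P(x) ~ A (log x)^ρ` holds for some `A`, `ρ` if and only if
`∑_{p ≤ x} a_p log p = o(x log x)`, a two-sided condition.

Here the conjecture for `C` is shown to be equivalent to the rank equality together with a ONE-SIDED
condition on the products over dyadic intervals `[x, 2x]`: `limsup max_{x ≤ y ≤ 2x} P(y)/P(x) ≤ 1`; or, if
`F` has no real zeros `> 1`, the same for `P(x)/P(y)`.  The rank equality can be replaced by bounds for
`P` along a single sequence.  The second order terms are described by the theorem of Rankin and Selberg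
(`rsSum → 0`), which is a hypothesis of the second part; the first part does not need it.

The proof is a one-sided theorem of Fatou-Riesz type for Laplace transforms, which uses the analytic
continuation of `F` near the single point `s = 1` only; everything is proved in the imported files.
-/

set_option autoImplicit false

namespace Pool.Agent.Results.MP_3283e1_nt.DyadicCriterion

open Pool.Agent.W263.BSD (pointCount GoodPrime IsLSeries bsdProduct rsSum)
open Pool.Agent.W136.FR Filter Topology

/-- the rank of the group of rational points -/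
noncomputable def rank (a b : ℤ) : ℕ :=
  Module.finrank ℤ
    (({ a₁ := 0, a₂ := 0, a₃ := 0, a₄ := (a : ℚ), a₆ := (b : ℚ) } : WeierstrassCurve ℚ).toAffine.Point)

/-- the assertion of the frozen statement for the curve `y² = x³ + a x + b` -/
def OriginalBSD (a b : ℤ) : Prop :=
  ∃ A : ℝ, 0 < A ∧
    Asymptotics.IsEquivalent Filter.atTop
      (fun x : ℝ => ∏ p ∈ (Finset.range (⌊x⌋₊ + 1)).filter
          (fun p : ℕ => Nat.Prime p ∧ ¬ ((p : ℤ) ∣ 16 * (4 * a ^ 3 + 27 * b ^ 2))),
        ((((Finset.range p ×ˢ Finset.range p).filter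
            (fun q : ℕ × ℕ => (p : ℤ) ∣ (q.2 : ℤ) ^ 2 - ((q.1 : ℤ) ^ 3 + a * (q.1 : ℤ) + b))).card + 1 : ℕ) : ℝ)
          / (p : ℝ))
      (fun x : ℝ => A * Real.log x ^ (rank a b))

/-- **The original conjecture and one-sided dyadic conditions.** -/
theorem result (a b : ℤ) (hΔ : 4 * a ^ 3 + 27 * b ^ 2 ≠ 0) (F : ℂ → ℂ) (hF : IsLSeries a b F) :
    (OriginalBSD a b ↔ analyticOrderAt F 1 = rank a b ∧ DyadicUpper a b ∧
      ∃ c : ℝ, Tendsto (corr a b) atTop (𝓝 c)) ∧
    (OriginalBSD a b → DyadicLower a b ∧ ∀ s : ℝ, 1 < s → F s ≠ 0) ∧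
    (Tendsto (rsSum a b) atTop (𝓝 0) →
      List.TFAE [
        OriginalBSD a b,
        iteratedDeriv (rank a b) F 1 ≠ 0 ∧
          Tendsto (fun x : ℝ => bsdProduct a b x / (Real.log x) ^ (rank a b)) atTop
            (𝓝 (√2 * (Real.exp (rank a b * Real.eulerMascheroniConstant) * (rank a b).factorial /
              ‖iteratedDeriv (rank a b) F 1‖))),
        analyticOrderAt F 1 = rank a b ∧ DyadicUpper a b,
        analyticOrderAt F 1 = rank a b ∧ (∀ s : ℝ, 1 < s → F s ≠ 0) ∧ DyadicLower a b,
        DyadicUpper a b ∧ ∃ c C : ℝ, 0 < c ∧ ∃ᶠ x : ℝ in atTop,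
          c * (Real.log x) ^ (rank a b) ≤ bsdProduct a b x ∧
            bsdProduct a b x ≤ C * (Real.log x) ^ (rank a b)]) := by
  have hO : OriginalBSD a b ↔ ∃ A : ℝ, 0 < A ∧
      Tendsto (fun x : ℝ => bsdProduct a b x / (Real.log x) ^ (rank a b)) atTop (𝓝 A) := by
    unfold OriginalBSD
    simp only [frozen_eq]
    exact exists_congr fun A => and_congr_right fun hA => equiv_iff hA _
  rw [hO]
  have h1 := orig_iff hF (rank a b)
  refine ⟨h1, fun h => ?_, fun hrs => orig_tfae hΔ hF (rank a b) hrs⟩
  obtain ⟨A, hA, h⟩ := h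
  obtain ⟨e1, e2⟩ := dyadic_of_tendsto hA h
  obtain ⟨r, hr⟩ := Pool.Agent.W263.BSD.order_finite hF
  have ht := dyadic_tfae hF hr
  have e3 : (∀ s : ℝ, 1 < s → F s ≠ 0) ∧ DyadicLower a b := (ht.out 2 3).mp e1
  exact ⟨e2, e3.1⟩

end Pool.Agent.Results.MP_3283e1_nt.DyadicCriterion
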